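import Pool.Agent.H90.PT.Th

/-!
# The orders `2 ^ k`, `k ≥ 6` (MP_2f0703_co, helper90)
-/

set_option autoImplicit false

namespace Pool.Agent.H90.PT.Two

open Pool.Agent.H90.PT

/-- `L i` is the row `i`, a permutation of the symbols; the array is a latin square if no column repeats a symbol -/
def IsLatin {n : ℕ} (L : Fin n → Equiv.Perm (Fin n)) : Prop :=
  ∀ j : Fin n, Function.Injective (fun i => L i j)

/-- every row fixes exactly one point and permutes the other points in a single cycle -/
def IsDType {n : ℕ} (L : Fin n → Equiv.Perm (Fin n)) : Prop :=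
  ∀ i : Fin n, (∃! x, L i x = x) ∧ ∀ x y, L i x ≠ x → L i y ≠ y → ∃ k : ℕ, ((L i) ^ k) x = y

/-- the product of two arrays, row by row: `(L M)_i (j) = L_i (M_i (j))` -/
def prod {n : ℕ} (L M : Fin n → Equiv.Perm (Fin n)) : Fin n → Equiv.Perm (Fin n) := fun i => L i * M i

/-- `L` is isotopic to the Cayley table of a group: permuting rows, columns and symbols gives the table -/
def BasedOnGroup {n : ℕ} (L : Fin n → Equiv.Perm (Fin n)) : Prop :=
  ∃ (G : Type) (_ : Group G) (r c s : Fin n ≃ G), ∀ i j, s (L i j) = r i * c j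

/-- there is a D-type latin square of order `n` which is not based on a group and whose square is latin -/
def HasSquare (n : ℕ) : Prop :=
  ∃ L : Fin n → Equiv.Perm (Fin n), IsLatin L ∧ IsDType L ∧ ¬ BasedOnGroup L ∧ IsLatin (prod L L)

theorem big {k : ℕ} (hk : 6 ≤ k) : HasSquare (2 ^ k) := by
  classical
  haveI : Fact (Nat.Prime 2) := ⟨Nat.prime_two⟩
  let F := GaloisField 2 k
  letI : Fintype F := Fintype.ofFinite F
  have hcard : Fintype.card F = 2 ^ k := by
    rw [← Nat.card_eq_fintype_card]
    exact GaloisField.card 2 k (by omega)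
  have hF : 64 ≤ Fintype.card F := by
    rw [hcard]
    calc 64 = 2 ^ 6 := by norm_num
      _ ≤ 2 ^ k := Nat.pow_le_pow_right (by norm_num) hk
  have two : ∀ x : F, x + x = 0 := two_of_alg
  obtain ⟨g, hg⟩ := IsCyclic.exists_monoid_generator (α := Fˣ)
  obtain ⟨a, ha0, ha⟩ : ∃ a : F, a ≠ 0 ∧ ∀ z : F, z ≠ 0 → ∃ m : ℕ, a ^ m = z := by
    refine ⟨g, g.ne_zero, fun z hz => ?_⟩
    obtain ⟨m, hm⟩ := hg (Units.mk0 z hz)
    refine ⟨m, ?_⟩
    have h1 : ((g ^ m : Fˣ) : F) = z := by
      have h2 : g ^ m = Units.mk0 z hz := hm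
      rw [h2, Units.val_mk0]
    rw [← h1, Units.val_pow_eq_pow_val]
  have ha1 : a + 1 ≠ 0 := by
    intro h
    have h1 : a = 1 := by linear_combination h - two 1
    have h2 : (Finset.univ : Finset F) ⊆ {0, 1} := by
      intro z _
      by_cases hz : z = 0
      · simp [hz]
      · obtain ⟨m, hm⟩ := ha z hz
        rw [h1, one_pow] at hm
        simp [← hm]
    have h3 := Finset.card_le_card h2
    have h4 : ({0, 1} : Finset F).card ≤ 2 := Finset.card_le_two
    rw [Finset.card_univ] at h3
    omega
  set V := VV a with hV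
  set c : F := a * (a + 1) ^ 2 with hc
  have two' : (2 : F) = 0 := by linear_combination two 1
  have hc0 : c ≠ 0 := mul_ne_zero ha0 (pow_ne_zero _ ha1)
  have hcV : c ∈ V := mem_VV.2 ⟨1, 0, 1, by rw [hc, map_one, map_zero]; linear_combination a ^ 2 * two'⟩
  have hv1 : a ^ 2 + a ∈ V := mem_VV.2 ⟨1, 1, 0, by rw [map_one, map_zero]; ring⟩
  have hav1 : a * (a ^ 2 + a) ∈ V := mem_VV.2 ⟨0, 1, 1, by rw [map_one, map_zero]; ring⟩
  have hv2 : a ∈ V := mem_VV.2 ⟨1, 0, 0, by rw [map_one, map_zero]; ring⟩
  have hav2 : a ^ 2 * a ∈ V := mem_VV.2 ⟨0, 0, 1, by rw [map_one, map_zero]; ring⟩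
  have hc1 : (a + 1) * (a ^ 2 + a) = c := by rw [hc]; ring
  have hc2 : (a ^ 2 + 1) * a = c := by rw [hc]; linear_combination - a ^ 2 * two'
  have ha2 : a ^ 2 + 1 ≠ 0 := by
    intro h
    apply pow_ne_zero 2 ha1
    linear_combination h + a * two'
  let θ : Equiv.Perm F := Function.Involutive.toPerm (th V c) (th_th two hcV)
  have hθ : ∀ x, θ x = th V c x := fun x => rfl
  have hθθ : ∀ x, θ (θ x) = x := fun x => th_th two hcV x
  let σ : Equiv.Perm F := Equiv.mulLeft₀ a ha0
  have hσ : ∀ x, σ x = a * x := fun x => rfl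
  let P : Equiv.Perm F := θ * σ * θ
  have hP : ∀ x, P x = θ (a * θ x) := fun x => rfl
  have hPP : ∀ x, P (P x) = θ (a ^ 2 * θ x) := by
    intro x
    rw [hP, hP, hθθ, ← mul_assoc, pow_two]
  have hPs : ∀ (n : ℕ) (x : F), (P ^ (n + 1)) x = (P ^ n) (P x) := fun n x => by rw [pow_succ]; rfl
  have hP2 : ∀ x, (P ^ 2) x = P (P x) := fun x => by rw [pow_two]; rfl
  have hPpow : ∀ (m : ℕ) (x : F), (P ^ m) x = θ (a ^ m * θ x) := by
    intro m
    induction m with
    | zero => intro x; rw [pow_zero, pow_zero, one_mul, hθθ]; rfl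
    | succ m ih =>
      intro x
      rw [hPs, ih, hP, hθθ]
      congr 1
      ring
  have inj1 : ∀ x y, P x + x = P y + y → x = y := fun x y h => th_inj two ha1 hc1 hv1 hav1 hcV h
  have inj2 : ∀ x y, P (P x) + x = P (P y) + y → x = y := fun x y h =>
    th_inj two ha2 hc2 hv2 hav2 hcV (by rw [hPP, hPP] at h; exact h)
  have hlin : ∀ x, x ∉ SS a → P x = a * x := fun x hx => f_lin ha0 hx
  have fixP : ∀ x, P x = x ↔ x = θ 0 := by
    intro x
    rw [hP]
    constructor
    · intro h
      have h1 : a * θ x = θ x := by rw [← hθθ (a * θ x), h]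
      have h2 : (a + 1) * θ x = 0 := by linear_combination h1 + two (θ x)
      rcases mul_eq_zero.1 h2 with h3 | h3
      · exact absurd h3 ha1
      · rw [← h3, hθθ]
    · rintro rfl
      rw [hθθ, mul_zero]
  let ε : F ≃ Fin (2 ^ k) := Fintype.equivFinOfCardEq hcard
  let row : F → Equiv.Perm F := fun i => (Equiv.addRight i).trans (P.trans (Equiv.addLeft i))
  have hrow : ∀ i x, row i x = i + P (x + i) := fun i x => rfl
  let L : Fin (2 ^ k) → Equiv.Perm (Fin (2 ^ k)) := fun i => (ε.symm.trans (row (ε.symm i))).trans ε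
  have hL : ∀ i x, L i x = ε (ε.symm i + P (ε.symm x + ε.symm i)) := fun i x => rfl
  have hpow : ∀ (i : Fin (2 ^ k)) (l : ℕ) (x : Fin (2 ^ k)),
      ((L i) ^ l) x = ε (ε.symm i + (P ^ l) (ε.symm x + ε.symm i)) := by
    intro i l
    induction l with
    | zero =>
      intro x
      have h1 : ε.symm i + (ε.symm x + ε.symm i) = ε.symm x := by linear_combination two (ε.symm i)
      rw [pow_zero, pow_zero, Equiv.Perm.one_apply, Equiv.Perm.one_apply, h1, Equiv.apply_symm_apply]
    | succ n ih =>
      intro x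
      have h1 : ∀ y : F, ε.symm i + y + ε.symm i = y := fun y => by linear_combination two (ε.symm i)
      rw [pow_succ, Equiv.Perm.mul_apply, ih, hL, Equiv.symm_apply_apply, hPs, h1]
  refine ⟨L, ?_, ?_, ?_, ?_⟩
  · intro j i i' hij
    have h1 : L i j = L i' j := hij
    rw [hL, hL] at h1
    have h3 := ε.injective h1
    have h5 := inj1 (ε.symm j + ε.symm i) (ε.symm j + ε.symm i') (by linear_combination h3)
    exact ε.symm.injective (add_left_cancel h5)
  · intro i
    have fix : ∀ x, L i x = x ↔ ε.symm x + ε.symm i = θ 0 := by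
      intro x
      rw [hL, ← fixP]
      constructor
      · intro h
        have h1 : ε.symm i + P (ε.symm x + ε.symm i) = ε.symm x := by
          apply ε.injective; rw [h, Equiv.apply_symm_apply]
        linear_combination h1 - two (ε.symm i)
      · intro h
        have h1 : ε.symm i + P (ε.symm x + ε.symm i) = ε.symm x := by
          rw [h]; linear_combination two (ε.symm i)
        rw [h1, Equiv.apply_symm_apply]
    refine ⟨⟨ε (θ 0 + ε.symm i), (fix _).2 ?_, fun y hy => ?_⟩, ?_⟩
    · rw [Equiv.symm_apply_apply]; linear_combination two (ε.symm i)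
    · have h1 := (fix y).1 hy
      rw [← h1, add_assoc, two, add_zero, Equiv.apply_symm_apply]
    · intro x y hx hy
      have hne : ∀ z, L i z ≠ z → θ (ε.symm z + ε.symm i) ≠ 0 := by
        intro z hz h0
        apply hz
        rw [fix, ← h0, hθθ]
      obtain ⟨m, hm⟩ := ha (θ (ε.symm y + ε.symm i) / θ (ε.symm x + ε.symm i))
        (div_ne_zero (hne y hy) (hne x hx))
      refine ⟨m, ?_⟩
      rw [hpow, hPpow, hm, div_mul_cancel₀ _ (hne x hx), hθθ]
      have h1 : ε.symm i + (ε.symm y + ε.symm i) = ε.symm y := by linear_combination two (ε.symm i)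
      rw [h1, Equiv.apply_symm_apply]
  · rintro ⟨G, hG, r, c', s, H⟩
    have H' : ∀ i j : F, s (ε (i + P (j + i))) = r (ε i) * c' (ε j) := by
      intro i j
      rw [← H (ε i) (ε j), hL, Equiv.symm_apply_apply, Equiv.symm_apply_apply]
    have key : ∀ i1 i2 j1 j2 : F, s (ε (i2 + P (j2 + i2))) =
        s (ε (i2 + P (j1 + i2))) * (s (ε (i1 + P (j1 + i1))))⁻¹ * s (ε (i1 + P (j2 + i1))) := by
      intro i1 i2 j1 j2
      rw [H', H', H', H']
      group
    obtain ⟨u, t, h, hu, ht, htu, hh, huh, hth, htuh⟩ := exists_sth two (SS a) (card_SS a) hF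
    have k1 := key u 0 t 0
    have k2 := key (u + a * h) (a * h) (t + (a + 1) * h) ((a + 1) * h)
    have m1 : (0 : F) + P (t + 0) = a * t := by rw [zero_add, add_zero, hlin t ht]
    have m2 : u + P (t + u) = u + a * (t + u) := by rw [hlin _ htu]
    have m3 : u + P (0 + u) = u + a * u := by rw [zero_add, hlin u hu]
    have e1 : (t + (a + 1) * h) + a * h = t + h := by linear_combination a * h * two'
    have e2 : (t + (a + 1) * h) + (u + a * h) = t + u + h := by linear_combination a * h * two'
    have e3 : (a + 1) * h + (u + a * h) = u + h := by linear_combination a * h * two'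
    have e4 : (a + 1) * h + a * h = h := by linear_combination a * h * two'
    have n1 : a * h + P ((t + (a + 1) * h) + a * h) = a * t := by
      rw [e1, hlin _ hth]; linear_combination a * h * two'
    have n2 : (u + a * h) + P ((t + (a + 1) * h) + (u + a * h)) = u + a * (t + u) := by
      rw [e2, hlin _ htuh]; linear_combination a * h * two'
    have n3 : (u + a * h) + P ((a + 1) * h + (u + a * h)) = u + a * u := by
      rw [e3, hlin _ huh]; linear_combination a * h * two'
    have n4 : a * h + P ((a + 1) * h + a * h) = 0 := by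
      rw [e4, hlin _ hh]; linear_combination a * h * two'
    rw [m1, m2, m3] at k1
    rw [n1, n2, n3, n4, ← k1] at k2
    have h5 := ε.injective (s.injective k2)
    have h6 : P 0 = 0 := by
      rw [zero_add, add_zero] at h5
      exact h5.symm
    rw [hP] at h6
    have h7 : a * θ 0 = θ 0 := by
      have h8 : θ (a * θ 0) = θ (θ 0) := by rw [h6, hθθ]
      exact θ.injective h8
    have h9 : θ 0 = c := by
      rw [hθ]
      unfold th
      rw [if_pos V.zero_mem, zero_add]
    rw [h9] at h7
    have h10 : (a + 1) * c = 0 := by linear_combination h7 + two c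
    exact mul_ne_zero ha1 hc0 h10
  · intro j i i' hij
    have h1 : ((L i) ^ 2) j = ((L i') ^ 2) j := by
      rw [pow_two, pow_two]; exact hij
    rw [hpow, hpow, hP2, hP2] at h1
    have h3 := ε.injective h1
    have h5 := inj2 (ε.symm j + ε.symm i) (ε.symm j + ε.symm i') (by linear_combination h3)
    exact ε.symm.injective (add_left_cancel h5)

end Pool.Agent.H90.PT.Two
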