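import Pool.Agent.H17.DS.NG
import Pool.Agent.H17.DS.Ex
import Pool.Agent.H17.DS.Nine

/-!
# The odd prime powers `n ≥ 9` (MP_2f0703_co): the text of helper17's OddPrimePowers as a library module

For every odd prime power `n ≥ 9` there is a D-type latin square `L` of order `n` which is not based on a group
and such that `L ^ 2` is a latin square.
-/

set_option autoImplicit false

namespace Pool.Agent.H90.PT.Odd

open Pool.Agent.H17.DS

/-- `L i` is the row `i`, a permutation of the symbols; the array is a latin square if no column repeats a symbol -/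
def IsLatin {n : ℕ} (L : Fin n → Equiv.Perm (Fin n)) : Prop :=
  ∀ j : Fin n, Function.Injective (fun i => L i j)

/-- every row fixes exactly one point and permutes the other points in a single cycle -/
def IsDType {n : ℕ} (L : Fin n → Equiv.Perm (Fin n)) : Prop :=
  ∀ i : Fin n, (∃! x, L i x = x) ∧ ∀ x y, L i x ≠ x → L i y ≠ y → ∃ k : ℕ, ((L i) ^ k) x = y

/-- the product of two arrays, row by row: `(L M)_i (j) = L_i (M_i (j))` -/
def prod {n : ℕ} (L M : Fin n → Equiv.Perm (Fin n)) : Fin n → Equiv.Perm (Fin n) := fun i => L i * M i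

/-- `L` is isotopic to the Cayley table of a group: permuting rows, columns and symbols gives the table -/
def BasedOnGroup {n : ℕ} (L : Fin n → Equiv.Perm (Fin n)) : Prop :=
  ∃ (G : Type) (_ : Group G) (r c s : Fin n ≃ G), ∀ i j, s (L i j) = r i * c j

theorem of_good {F : Type} [Field F] [Fintype F] [DecidableEq F] (h2 : ringChar F ≠ 2) {a b : F} (h : Good a b) :
    ∃ L : Fin (Fintype.card F) → Equiv.Perm (Fin (Fintype.card F)),
      IsLatin L ∧ IsDType L ∧ ¬ BasedOnGroup L ∧ IsLatin (prod L L) := by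
  let e : F ≃ Fin (Fintype.card F) := Fintype.equivFin F
  let L : Fin (Fintype.card F) → Equiv.Perm (Fin (Fintype.card F)) := fun i => (e.symm.trans (row h (e.symm i))).trans e
  have hL : ∀ i x, L i x = e (row h (e.symm i) (e.symm x)) := fun i x => rfl
  have hpow : ∀ (i : Fin (Fintype.card F)) (k : ℕ) (x : Fin (Fintype.card F)),
      ((L i) ^ k) x = e (((row h (e.symm i)) ^ k) (e.symm x)) := by
    intro i k
    induction k with
    | zero => intro x; simp
    | succ n ih =>
      intro x
      rw [pow_succ, Equiv.Perm.mul_apply, ih, hL, Equiv.symm_apply_apply, pow_succ, Equiv.Perm.mul_apply]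
  have hrow : ∀ (i : F) (k : ℕ) (x : F), ((row h i) ^ k) x = i + ((P h) ^ k) (x - i) := by
    intro i k
    induction k with
    | zero => intro x; simp
    | succ n ih =>
      intro x
      rw [pow_succ, Equiv.Perm.mul_apply, ih, row_apply, pow_succ, Equiv.Perm.mul_apply, P_apply]
      congr 2
      ring
  refine ⟨L, ?_, ?_, ?_, ?_⟩
  · intro j i i' hij
    have h1 : L i j = L i' j := hij
    rw [hL, hL] at h1
    have h3 := e.injective h1
    rw [row_apply, row_apply] at h3
    have h4 : phi a b (e.symm j - e.symm i) - (e.symm j - e.symm i) =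
        phi a b (e.symm j - e.symm i') - (e.symm j - e.symm i') := by linear_combination h3
    have h5 := diff_inj h h4
    exact e.symm.injective (sub_right_injective h5)
  · intro i
    have fix : ∀ x, L i x = x ↔ x = i := by
      intro x
      rw [hL]
      constructor
      · intro hx
        have h1 : row h (e.symm i) (e.symm x) = e.symm x := by
          apply e.injective; rw [hx, Equiv.apply_symm_apply]
        rw [row_apply] at h1
        have h3 : phi a b (e.symm x - e.symm i) - (e.symm x - e.symm i) = phi a b 0 - 0 := by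
          rw [phi_zero]; linear_combination h1
        have h4 := diff_inj h h3
        exact e.symm.injective (sub_eq_zero.1 h4)
      · rintro rfl
        rw [row_apply, sub_self, phi_zero, add_zero, Equiv.apply_symm_apply]
    refine ⟨⟨i, (fix i).2 rfl, fun x hx => (fix x).1 hx⟩, ?_⟩
    intro x y hx hy
    have hx' : e.symm x - e.symm i ≠ 0 := fun h0 => hx ((fix x).2 (e.symm.injective (sub_eq_zero.1 h0)))
    have hy' : e.symm y - e.symm i ≠ 0 := fun h0 => hy ((fix y).2 (e.symm.injective (sub_eq_zero.1 h0)))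
    obtain ⟨k, hk⟩ := reach h hx'
    obtain ⟨l, hl⟩ := reach h hy'
    have hfin := isOfFinOrder_of_finite (P h)
    obtain ⟨m, hm⟩ : ∃ m : ℕ, ((P h) ^ m) (e.symm x - e.symm i) = 1 := by
      have h3 : ((P h) ^ k)⁻¹ ∈ Submonoid.powers (P h) := by
        rw [hfin.mem_powers_iff_mem_zpowers]
        exact (Subgroup.zpowers (P h)).inv_mem ((Subgroup.zpowers (P h)).pow_mem (Subgroup.mem_zpowers _) k)
      obtain ⟨m, hm⟩ := h3
      refine ⟨m, ?_⟩
      have hm' : (P h) ^ m = ((P h) ^ k)⁻¹ := hm
      rw [hm', ← hk, perm_inv_apply]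
    refine ⟨l + m, ?_⟩
    rw [hpow, hrow, pow_add, Equiv.Perm.mul_apply, hm, hl, add_sub_cancel, Equiv.apply_symm_apply]
  · rintro ⟨G, hG, r, c, s, H⟩
    apply not_iso h h2
    refine ⟨G, hG, e.trans r, e.trans c, e.trans s, fun i j => ?_⟩
    have h1 := H (e i) (e j)
    rw [hL, Equiv.symm_apply_apply, Equiv.symm_apply_apply] at h1
    exact h1
  · intro j i i' hij
    have h1 : ((L i) ^ 2) j = ((L i') ^ 2) j := by
      rw [pow_two, pow_two]; exact hij
    rw [hpow, hpow, hrow, hrow] at h1
    have h3 := e.injective h1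
    rw [pow_two, Equiv.Perm.mul_apply, P_apply, P_apply, Equiv.Perm.mul_apply, P_apply, P_apply,
      phi_phi h.ha h.hb, phi_phi h.ha h.hb] at h3
    have h4 : (1 - a * b) * (e.symm i) = (1 - a * b) * (e.symm i') := by linear_combination h3
    have h5 : (1 : F) - a * b ≠ 0 := sub_ne_zero.2 h.hp.symm
    exact e.symm.injective (mul_left_cancel₀ h5 h4)

/-- order 9, an explicit square -/
theorem nine : ∃ L : Fin 9 → Equiv.Perm (Fin 9), IsLatin L ∧ IsDType L ∧ ¬ BasedOnGroup L ∧ IsLatin (prod L L) := by
  refine ⟨Nine.L, ?_, ?_, ?_, ?_⟩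
  · intro j i i' h
    exact Nine.latin j i i' h
  · intro i
    have hpow : ∀ (k : ℕ) (x : Fin 9), ((Nine.L i) ^ k) x = (Nine.A i)^[k] x := by
      intro k
      induction k with
      | zero => intro x; rfl
      | succ n ih =>
        intro x
        rw [pow_succ, Equiv.Perm.mul_apply, ih, Function.iterate_succ_apply]; rfl
    refine ⟨⟨i, (Nine.fix i i).2 rfl, fun x hx => (Nine.fix i x).1 hx⟩, ?_⟩
    intro x y hx hy
    have hx' : x ≠ i := fun h => hx ((Nine.fix i x).2 h)
    have hy' : y ≠ i := fun h => hy ((Nine.fix i y).2 h)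
    obtain ⟨k, hk⟩ := Nine.orbit i x hx'
    obtain ⟨l, hl⟩ := Nine.orbit i y hy'
    rw [← hpow] at hk hl
    have hfin := isOfFinOrder_of_finite (Nine.L i)
    obtain ⟨m, hm⟩ : ∃ m : ℕ, ((Nine.L i) ^ m) x = i + 1 := by
      have h3 : ((Nine.L i) ^ (k : ℕ))⁻¹ ∈ Submonoid.powers (Nine.L i) := by
        rw [hfin.mem_powers_iff_mem_zpowers]
        exact (Subgroup.zpowers (Nine.L i)).inv_mem
          ((Subgroup.zpowers (Nine.L i)).pow_mem (Subgroup.mem_zpowers _) k)
      obtain ⟨m, hm⟩ := h3
      refine ⟨m, ?_⟩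
      have hm' : (Nine.L i) ^ m = ((Nine.L i) ^ (k : ℕ))⁻¹ := hm
      rw [hm', ← hk, perm_inv_apply]
    refine ⟨l + m, ?_⟩
    rw [pow_add, Equiv.Perm.mul_apply, hm, hl]
  · rintro ⟨G, hG, r, c, s, H⟩
    obtain ⟨x, w, h1, h2⟩ := Nine.no_coset (r.symm (r 0 * (r 1)⁻¹ * r 0))
    apply h2
    apply s.injective
    have e1 := H 1 w
    have e2 := H 0 x
    have e3 := H 0 w
    have e4 := H (r.symm (r 0 * (r 1)⁻¹ * r 0)) x
    rw [Nine.L_apply] at e1 e2 e3 e4
    rw [e3, e4, Equiv.apply_symm_apply, mul_assoc, ← e2, ← h1, e1, mul_assoc, inv_mul_cancel_left]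
  · intro j i i' h
    exact Nine.latin2 j i i' h

/-- For every odd prime power `n ≥ 9` there is a D-type latin square `L` of order `n`, not based on a group, such that
`L ^ 2` is a latin square. -/
theorem result : ∀ n : ℕ, Odd n → IsPrimePow n → 9 ≤ n →
    ∃ L : Fin n → Equiv.Perm (Fin n), IsLatin L ∧ IsDType L ∧ ¬ BasedOnGroup L ∧ IsLatin (prod L L) := by
  intro n hodd hpp hn
  by_cases h9 : n = 9
  · subst h9
    exact nine
  have hn11 : 11 ≤ n := by
    rcases hodd with ⟨m, rfl⟩
    omega
  by_cases h13 : n = 13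
  · subst h13
    have h := of_good (F := ZMod 13) (by rw [ZMod.ringChar_zmod_n]; norm_num) good13
    have hc : Fintype.card (ZMod 13) = 13 := ZMod.card 13
    rw [hc] at h
    exact h
  · obtain ⟨p, k, hp, hk, rfl⟩ := (isPrimePow_nat_iff _).1 hpp
    haveI : Fact p.Prime := ⟨hp⟩
    haveI : Fintype (GaloisField p k) := Fintype.ofFinite _
    haveI : DecidableEq (GaloisField p k) := Classical.decEq _
    have hc : Fintype.card (GaloisField p k) = p ^ k := by
      rw [← Nat.card_eq_fintype_card, GaloisField.card p k hk.ne']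
    have h2 : ringChar (GaloisField p k) ≠ 2 := by
      rw [ringChar.eq (GaloisField p k) p]
      rintro rfl
      rw [Nat.odd_pow_iff hk.ne'] at hodd
      norm_num at hodd
    obtain ⟨a, b, h⟩ := exists_good (F := GaloisField p k) h2 (by rw [hc]; exact hn11) (by rw [hc]; exact h13)
    have h3 := of_good h2 h
    rw [hc] at h3
    exact h3

end Pool.Agent.H90.PT.Odd
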