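import Mathlib

/-!
# A linear permutation conjugated by a translation on a subgroup (MP_2f0703_co, helper90)
-/

set_option autoImplicit false

namespace Pool.Agent.H90.PT

variable {F : Type} [Field F]

open Classical in
/-- the translation by `c` on `V`, the identity elsewhere -/
noncomputable def th (V : AddSubgroup F) (c x : F) : F := if x ∈ V then x + c else x

open Classical in
noncomputable def gg (V : AddSubgroup F) (m v z : F) : F :=
  z + (if z ∈ V then v else 0) + (if m * z ∈ V then v else 0)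

theorem th_th (two : ∀ x : F, x + x = 0) {V : AddSubgroup F} {c : F} (hc : c ∈ V) (x : F) :
    th V c (th V c x) = x := by
  unfold th
  by_cases h : x ∈ V
  · have h2 : x + c ∈ V := V.add_mem h hc
    rw [if_pos h, if_pos h2, add_assoc, two, add_zero]
  · rw [if_neg h, if_neg h]

theorem gg_gg (two : ∀ x : F, x + x = 0) {V : AddSubgroup F} {m v : F} (hv : v ∈ V) (hmv : m * v ∈ V) (z : F) :
    gg V m v (gg V m v z) = z := by
  have e1 : z + v ∈ V ↔ z ∈ V := V.add_mem_cancel_right hv
  have e2 : m * (z + v) ∈ V ↔ m * z ∈ V := by rw [mul_add]; exact V.add_mem_cancel_right hmv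
  have e3 : z + v + v = z := by rw [add_assoc, two, add_zero]
  unfold gg
  by_cases h1 : z ∈ V
  · by_cases h2 : m * z ∈ V
    · rw [if_pos h1, if_pos h2, e3, if_pos h1, if_pos h2, e3]
    · rw [if_pos h1, if_neg h2, add_zero, if_pos (e1.2 h1), if_neg (fun h => h2 (e2.1 h)), add_zero, e3]
  · by_cases h2 : m * z ∈ V
    · rw [if_neg h1, if_pos h2, add_zero, if_neg (fun h => h1 (e1.1 h)), if_pos (e2.2 h2), add_zero, e3]
    · rw [if_neg h1, if_neg h2, add_zero, add_zero, if_neg h1, if_neg h2, add_zero, add_zero]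

theorem th_sum {V : AddSubgroup F} {m v c : F} (hc : (m + 1) * v = c) (z : F) :
    th V c (m * z) + th V c z = (m + 1) * gg V m v z := by
  unfold th gg
  by_cases h1 : z ∈ V
  · by_cases h2 : m * z ∈ V
    · rw [if_pos h1, if_pos h2, if_pos h1, if_pos h2]; linear_combination -2 * hc
    · rw [if_pos h1, if_neg h2, if_pos h1, if_neg h2]; linear_combination - hc
  · by_cases h2 : m * z ∈ V
    · rw [if_neg h1, if_pos h2, if_neg h1, if_pos h2]; linear_combination - hc
    · rw [if_neg h1, if_neg h2, if_neg h1, if_neg h2]; ring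

theorem th_inj (two : ∀ x : F, x + x = 0) {V : AddSubgroup F} {m v c : F} (hm : m + 1 ≠ 0) (hc : (m + 1) * v = c)
    (hv : v ∈ V) (hmv : m * v ∈ V) (hcV : c ∈ V) {x y : F}
    (h : th V c (m * th V c x) + x = th V c (m * th V c y) + y) : x = y := by
  have h1 : ∀ z, th V c (m * th V c z) + z = (m + 1) * gg V m v (th V c z) := by
    intro z
    rw [← th_sum hc, th_th two hcV]
  rw [h1, h1] at h
  have h2 := mul_left_cancel₀ hm h
  have h3 : th V c x = th V c y := by
    rw [← gg_gg two hv hmv (th V c x), h2, gg_gg two hv hmv]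
  rw [← th_th two hcV x, h3, th_th two hcV]

section span

variable [Algebra (ZMod 2) F]

theorem two_of_alg (x : F) : x + x = 0 := by
  have h : (2 : F) = 0 := by
    have h1 : (2 : F) = algebraMap (ZMod 2) F 2 := (map_ofNat (algebraMap (ZMod 2) F) 2).symm
    have h2 : (2 : ZMod 2) = 0 := by decide
    rw [h1, h2, map_zero]
  linear_combination x * h

/-- the group generated by `a`, `a ^ 2`, `a ^ 3` -/
def VV (a : F) : AddSubgroup F where
  carrier := {x | ∃ e1 e2 e3 : ZMod 2, x = algebraMap (ZMod 2) F e1 * a + algebraMap (ZMod 2) F e2 * a ^ 2 +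
    algebraMap (ZMod 2) F e3 * a ^ 3}
  zero_mem' := ⟨0, 0, 0, by simp⟩
  add_mem' := by
    rintro x y ⟨e1, e2, e3, rfl⟩ ⟨d1, d2, d3, rfl⟩
    exact ⟨e1 + d1, e2 + d2, e3 + d3, by rw [map_add, map_add, map_add]; ring⟩
  neg_mem' := by
    rintro x ⟨e1, e2, e3, rfl⟩
    exact ⟨-e1, -e2, -e3, by rw [map_neg, map_neg, map_neg]; ring⟩

theorem mem_VV {a x : F} : x ∈ VV a ↔ ∃ e1 e2 e3 : ZMod 2, x = algebraMap (ZMod 2) F e1 * a +
    algebraMap (ZMod 2) F e2 * a ^ 2 + algebraMap (ZMod 2) F e3 * a ^ 3 := Iff.rfl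

open Classical in
/-- a set of at most 12 elements outside of which the permutation is `x ↦ a x` -/
noncomputable def SS (a : F) : Finset F :=
  ((Finset.univ : Finset (ZMod 2 × ZMod 2 × ZMod 2 × ZMod 2)).filter (fun e => e.1 = 0 ∨ e.2.2.2 = 0)).image
    (fun e => algebraMap (ZMod 2) F e.1 + algebraMap (ZMod 2) F e.2.1 * a + algebraMap (ZMod 2) F e.2.2.1 * a ^ 2 +
      algebraMap (ZMod 2) F e.2.2.2 * a ^ 3)

theorem card_SS (a : F) : (SS a).card ≤ 12 := by
  classical
  unfold SS
  refine le_trans Finset.card_image_le ?_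
  decide

theorem mem_SS_of_V {a x : F} (h : x ∈ VV a) : x ∈ SS a := by
  classical
  obtain ⟨e1, e2, e3, rfl⟩ := mem_VV.1 h
  unfold SS
  refine Finset.mem_image.2 ⟨(0, e1, e2, e3), ?_, ?_⟩
  · simp
  · simp

theorem mem_SS_of_aV {a x : F} (ha : a ≠ 0) (h : a * x ∈ VV a) : x ∈ SS a := by
  classical
  obtain ⟨e1, e2, e3, h1⟩ := mem_VV.1 h
  unfold SS
  refine Finset.mem_image.2 ⟨(e1, e2, e3, 0), ?_, ?_⟩
  · simp
  · apply mul_left_cancel₀ ha
    rw [h1]
    simp only [map_zero]
    ring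

theorem f_lin {a c x : F} (ha : a ≠ 0) (h : x ∉ SS a) : th (VV a) c (a * th (VV a) c x) = a * x := by
  have h1 : x ∉ VV a := fun h1 => h (mem_SS_of_V h1)
  have h2 : a * x ∉ VV a := fun h2 => h (mem_SS_of_aV ha h2)
  have h3 : th (VV a) c x = x := by unfold th; rw [if_neg h1]
  rw [h3]
  unfold th
  rw [if_neg h2]

end span

omit [Field F] in
theorem ex_notMem [Fintype F] (T : Finset F) (h : T.card < Fintype.card F) : ∃ x, x ∉ T := by
  by_contra hcon
  push Not at hcon
  have h1 : T = Finset.univ := Finset.eq_univ_iff_forall.2 hcon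
  rw [h1, Finset.card_univ] at h
  exact lt_irrefl _ h

theorem exists_sth [Fintype F] (two : ∀ x : F, x + x = 0) (S : Finset F) (h : S.card ≤ 12) (hF : 64 ≤ Fintype.card F) :
    ∃ s t h : F, s ∉ S ∧ t ∉ S ∧ t + s ∉ S ∧ h ∉ S ∧ s + h ∉ S ∧ t + h ∉ S ∧ t + s + h ∉ S := by
  classical
  obtain ⟨s, hs⟩ := ex_notMem S (by omega)
  have c1 : (S.image (· + s)).card ≤ 12 := le_trans Finset.card_image_le h
  obtain ⟨t, ht⟩ := ex_notMem (S ∪ S.image (· + s)) (by
    have := Finset.card_union_le S (S.image (· + s))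
    omega)
  have c2 : (S.image (· + t)).card ≤ 12 := le_trans Finset.card_image_le h
  have c3 : (S.image (· + (t + s))).card ≤ 12 := le_trans Finset.card_image_le h
  obtain ⟨r, hr⟩ := ex_notMem ((S ∪ S.image (· + s)) ∪ (S.image (· + t) ∪ S.image (· + (t + s)))) (by
    have h1 := Finset.card_union_le S (S.image (· + s))
    have h2 := Finset.card_union_le (S.image (· + t)) (S.image (· + (t + s)))
    have h3 := Finset.card_union_le (S ∪ S.image (· + s)) (S.image (· + t) ∪ S.image (· + (t + s)))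
    omega)
  simp only [Finset.mem_union, Finset.mem_image, not_or] at ht hr
  have key : ∀ x y : F, ¬ (∃ b ∈ S, b + y = x) → x + y ∉ S := by
    intro x y h1 h2
    exact h1 ⟨x + y, h2, by rw [add_assoc, two, add_zero]⟩
  refine ⟨s, t, r, hs, ht.1, key _ _ ht.2, hr.1.1, ?_, ?_, ?_⟩
  · rw [add_comm]; exact key _ _ hr.1.2
  · rw [add_comm]; exact key _ _ hr.2.1
  · rw [add_comm]; exact key _ _ hr.2.2

end Pool.Agent.H90.PT
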